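import Pool.Agent.H73.CBE.Stmts

/-!
Row EXD of the board `cbe` (MP_e1af46_an): the choice of `d`.
-/

set_option autoImplicit false

open Set Filter Topology

namespace Pool.CBE

theorem EXD_thm : EXDStmt := by
  intro κ a hκ ha ha1
  have hκ0 : 0 < κ := by linarith
  have h1 : Tendsto (fun d : ℕ => (d : ℝ) ^ ((1 - a) / 2)) atTop atTop :=
    (tendsto_rpow_atTop (by linarith)).comp tendsto_natCast_atTop_atTop
  obtain ⟨d, hd, hd2⟩ := ((h1.eventually_gt_atTop (κ ^ (1 + a))).and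
    (eventually_ge_atTop 2)).exists
  refine ⟨d, hd2, ?_⟩
  have hd0 : (0 : ℝ) < d := by
    have : 0 < d := by omega
    exact_mod_cast this
  rw [Real.mul_rpow hκ0.le (Real.sqrt_nonneg _), Real.sqrt_eq_rpow, ← Real.rpow_mul hd0.le]
  calc κ ^ (1 + a) * (d : ℝ) ^ (1 / 2 * (1 + a))
      < (d : ℝ) ^ ((1 - a) / 2) * (d : ℝ) ^ (1 / 2 * (1 + a)) :=
        mul_lt_mul_of_pos_right hd (Real.rpow_pos_of_pos hd0 _)
    _ = (d : ℝ) ^ (1 : ℝ) := by
        rw [← Real.rpow_add hd0]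
        congr 1
        ring
    _ = d := Real.rpow_one _

end Pool.CBE
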